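import Pool.Agent.Q283.EN.Stm2
import Pool.Agent.Q285.CE.ECOND

/-!
# Project EN (helper283), job ECX: the condition outside `3`
-/

set_option autoImplicit false

namespace Pool.Agent.Q181.EN

open NumberField IsDedekindDomain Pool.Agent.Q7.LK Pool.Agent.Q7.CE Pool.Agent.Q285.LK
  Pool.Agent.Q285.CE Pool.Agent.Q283.EN

/-- from a solution to the condition (the local argument in the proof of `S_ECOND`) -/
theorem fwd (hCPL : Pool.Agent.Q7.LK.S_CPL) {F : Type} [Field F] [NumberField F]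
    (v : HeightOneSpectrum (𝓞 F)) (D a : F) (hv : ¬ Dp 3 v) (hD : D ≠ 0) (hAE : AE v D a) :
    (vl 3 v D = 0 → vl 3 v a = 0) ∧ (vl 3 v D ≠ 0 → ∃ j : ℕ, Lpw 3 v (a * D ^ j)) := by
  have : Fact (Nat.Prime 3) := ⟨Nat.prime_three⟩
  obtain ⟨ha, u, w, s, h0, h1⟩ := hAE
  rw [cpl_coe, cpl_coe] at h1
  obtain ⟨h2, h3⟩ := analysis hv ((map_ne_zero (algebraMap F (v.adicCompletion F))).2 ha)
    ((map_ne_zero (algebraMap F (v.adicCompletion F))).2 hD) h0 h1
  rw [rr_coe, rr_coe, neg_eq_zero, neg_eq_zero] at h2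
  rw [rr_coe, neg_ne_zero] at h3
  refine ⟨h2, fun h4 => ?_⟩
  rcases h3 h4 with ⟨x, hx⟩ | ⟨x, hx⟩ | ⟨x, hx⟩
  · refine ⟨0, (hCPL 3 F v _).2 ⟨mul_ne_zero ha (pow_ne_zero _ hD), x, ?_⟩⟩
    rw [cpl_coe, pow_zero, mul_one]
    exact hx
  · refine ⟨1, (hCPL 3 F v _).2 ⟨mul_ne_zero ha (pow_ne_zero _ hD), x, ?_⟩⟩
    rw [cpl_coe, pow_one, map_mul]
    exact hx
  · refine ⟨2, (hCPL 3 F v _).2 ⟨mul_ne_zero ha (pow_ne_zero _ hD), x, ?_⟩⟩
    rw [cpl_coe, map_mul, map_pow]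
    exact hx

/-- the trivial class -/
theorem ae_one {F : Type} [Field F] [NumberField F] (v : HeightOneSpectrum (𝓞 F)) (D : F) :
    AE v D 1 := by
  refine ⟨one_ne_zero, 1, 1, 0, Or.inl one_ne_zero, ?_⟩
  rw [cpl_coe, map_one]
  ring

theorem ecx (hBAS : Pool.Agent.Q7.LK.S_BAS) (hCPL : Pool.Agent.Q7.LK.S_CPL)
    (hELOC : Pool.Agent.Q7.CE.S_ELOC) (hIDX3 : Pool.Agent.Q283.EN.S_IDX3) :
    Pool.Agent.Q283.EN.S_ECX := by
  intro F _ _ ω hω v D a hv hD ha
  have : Fact (Nat.Prime 3) := ⟨Nat.prime_three⟩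
  obtain ⟨b1, b2, b3, b4, b5, b6, b7⟩ := hBAS 3 F v
  obtain ⟨e1, e2, e3, e4⟩ := hELOC F v D hD
  refine ⟨fwd hCPL v D a hv hD, ?_⟩
  rintro ⟨hc1, hc2⟩
  by_cases h0 : vl 3 v D = 0
  · have hva := hc1 h0
    obtain ⟨B, hB1, hB2, hB3⟩ := hIDX3 F ω hω v D hD
    have hdv : dv 3 v = 0 := by
      unfold dv
      rw [if_neg hv]
    rw [hdv] at hB1
    obtain ⟨-, -, c2, c3⟩ := b7 hv ω hω
    have hBv : ∀ b ∈ B, b ≠ 0 ∧ vl 3 v b = 0 := fun b hb =>
      ⟨(hB2 b hb).1, (fwd hCPL v D b hv hD (hB2 b hb)).1 h0⟩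
    -- quotients
    have hq : ∀ x y : F, x ≠ 0 → y ≠ 0 → vl 3 v x = 0 → vl 3 v y = 0 → sy 3 ω v x = sy 3 ω v y →
        Lpw 3 v (x / y) := by
      intro x y hx hy hvx hvy hs
      have h1 : y * (x / y) = x := mul_div_cancel₀ x hy
      have h2 : x / y ≠ 0 := div_ne_zero hx hy
      have h3 : vl 3 v (x / y) = 0 := by
        have := b5 y (x / y) hy h2
        rw [h1, hvx, hvy, zero_add] at this
        exact this.symm
      have h4 : sy 3 ω v (x / y) = 0 := by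
        have := c2 y (x / y) hy h2 hvy h3
        rw [h1, hs] at this
        exact left_eq_add.1 this
      exact (c3 _ h2 h3).1 h4
    have hinj : Set.InjOn (fun b => sy 3 ω v b) (B : Set F) := by
      intro x hx y hy hxy
      by_contra hne
      exact hB3 x hx y hy hne (hq x y (hBv x hx).1 (hBv y hy).1 (hBv x hx).2 (hBv y hy).2 hxy)
    have himg : B.image (fun b => sy 3 ω v b) = Finset.univ := by
      apply Finset.eq_univ_of_card
      rw [Finset.card_image_of_injOn hinj]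
      apply le_antisymm
      · have h1 := Finset.card_le_univ (B.image (fun b => sy 3 ω v b))
        rw [Finset.card_image_of_injOn hinj] at h1
        exact h1
      · rw [ZMod.card]
        simpa using hB1
    have hmem : sy 3 ω v a ∈ B.image (fun b => sy 3 ω v b) := by
      rw [himg]
      exact Finset.mem_univ _
    obtain ⟨b, hb, hbs⟩ := Finset.mem_image.1 hmem
    have h5 := hq a b ha (hBv b hb).1 hva (hBv b hb).2 hbs.symm
    have h6 := e1 b (a / b) (hB2 b hb) h5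
    rw [mul_div_cancel₀ a (hBv b hb).1] at h6
    exact h6
  · obtain ⟨j, hj⟩ := hc2 h0
    have h1 : AE v D (a * D ^ j) := by
      have := e1 1 (a * D ^ j) (ae_one v D) hj
      rwa [one_mul] at this
    have h2 : ∀ n : ℕ, AE v D (a * D ^ j * D ^ n) := by
      intro n
      induction n with
      | zero => rwa [pow_zero, mul_one]
      | succ n ih =>
        have := e3 _ ih
        rwa [mul_assoc, ← pow_succ] at this
    have h3 := e1 _ ((D ^ j)⁻¹ ^ 3) (h2 (2 * j)) (b3 _ (inv_ne_zero (pow_ne_zero j hD)))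
    have h4 : a * D ^ j * D ^ (2 * j) * (D ^ j)⁻¹ ^ 3 = a := by
      have hDj : D ^ j ≠ 0 := pow_ne_zero j hD
      rw [mul_comm 2 j, pow_mul D j 2]
      field_simp
    rwa [h4] at h3

end Pool.Agent.Q181.EN
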